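import Pool.Agent.NH48.FN.Main

set_option autoImplicit false

/-!
# Khot's d-to-1 conjecture for circuits with few gates that are not monotone

The circuits read the constraints of a d-to-1 game.  They consist of gates that apply arbitrary
nondecreasing real functions to two values, and of free gates.  A free gate with `w` input wires
compares the values of `w` earlier gates with thresholds and applies an arbitrary function to the
results of the comparisons; so the negation gate is a free gate with one input wire.  There is no
bound on the depth.

Result: for all `d ≥ 2` and `ε > 0` there are numbers `R` and `K` such that randomised circuits of
this kind (error probability at most `1 / 4` on both sides), for which the product of the numbers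
`w + 1` over the free gates is at most `p`, need `2 ^ (N ^ (1 / (60 p)))` gates to tell the games with
`N` left and `N` right vertices, `R` left and `d R` right labels, and value one from those of value
less than `ε`, as long as `p ≤ log N / log K`.

* `p = 1`: monotone circuits, the starting result `MonotoneCircuits`, which is used in the proof.
* `p = 2 ^ t`: circuits with `t` negation gates.  They need exponential size for each fixed `t`, and
  more than polynomial size for all `t ≤ log log N - log log log N - 7` (logarithms to the base
  two, `N` large).
* With `2 log N + O(1)` negation gates all circuits can be simulated (Markov, Fischer), and the
  statement would imply the conjecture for circuits instead of NP-hardness.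
* For `d = 1` (unique games) the statement fails: propagation of labels is done by monotone circuits
  of polynomial size.

Proof.  (1) The hard distributions of `MonotoneCircuits`: small circuits of monotone real gates
accept at most a quarter of certain games of value less than `ε / 2`, or reject at most a seventh of
certain games of value one.  (2) The vertices are divided into `T = 4 p - 3` layers; in layer `i`
there are blow-ups, by the factor `B ^ i`, of small games, so a game of small value in one layer
outweighs everything in the lower layers.  Random games of value one are put into the layers
`1, 2, …, i - 1`, and a random game of small value or of value one into layer `i`.  (3) Along the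
increasing chain of the games of value one the states of the free gates (the results of the
comparisons) increase lexicographically, they change at most `p - 1` times.  If they do not change in
the step `i`, then the circuit can be replaced, in this layer and over the fixed games below, by a
circuit of monotone real gates: the free gates are replaced by constants, and the output is made one
as soon as some comparison changes its result.

The definitions used in the statement are in `Pool/Agent/NH48/FN/Model.lean` (`GProg`),
`Pool/Agent/H630VC/Model.lean` (`Mono2`) and `Pool/Agent/H589R3/DT/GameDefs.lean` (`DGame`,
`dInputs`, `DYes`, `DNo`, `DDecides`).
-/

namespace Pool.Agent.Results.MP_62e2f2_lc.FewFreeGates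

open H589DT Pool.Agent.NH48.FN

/-- For all `d ≥ 2` and `ε > 0` there are `R` and `K` such that for all `p ≥ 1` and `N ≥ K ^ p`:
every randomised circuit (a finite family `l ω`, `ω ∈ Ω`) of monotone real gates and free gates, for
which the product of the numbers (input wires + 1) over the free gates of each member is at most `p`,
and which on the d-to-1 games with `N` left and `N` right vertices, `R` left labels and `d R` right
labels tells the games of value less than `ε` from those of value one for at least three quarters of
the `ω`, has a member with at least `2 ^ (N ^ (1 / (60 p)))` gates. -/
theorem result (d : ℕ) (hd : 2 ≤ d) (ε : ℝ) (hε : 0 < ε) :
    ∃ R : ℕ, 1 ≤ R ∧ ∃ K : ℕ, ∀ p N : ℕ, 1 ≤ p → K ^ p ≤ N →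
      ∀ (Ω : Type) [Fintype Ω] [Nonempty Ω] (l : Ω → List (DGame (Fin N) (Fin N) d R → ℝ)),
      (∀ ω, ∃ q ≤ p, GProg (dInputs (Fin N) (Fin N) d R) q (l ω)) → DDecides ε l →
      ∃ ω, (2 : ℝ) ^ ((N : ℝ) ^ (1 / (60 * (p : ℝ)))) ≤ (l ω).length :=
  few_gates d hd ε hε

end Pool.Agent.Results.MP_62e2f2_lc.FewFreeGates
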