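import Pool.Agent.NH48.SD.Main

set_option autoImplicit false

/-!
# d-to-1 games and monotone circuits with access to SDA and to local consistency

The relaxation SDA of Ciardo and Živný (semidefinite programming and linear equations) combines the
basic semidefinite relaxation with the affine integer relaxation, whose solution has to be
supported on the labels with nonzero vectors.  We show that neither SDA nor local consistency nor
both together solve the gap problem for d-to-1 games with perfect completeness, for any `d ≥ 2` and
any soundness `ε > 0`, and more: randomised circuits of monotone real gates that read the
constraints, and that may in addition use at no cost all functions of the game, monotone or not,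
that are constant on the games accepted by SDA, BLP+AIP and `k`-consistency, `k = N ^ (1 / 14)`,
need exponential size to tell value one from value less than `ε`.

Idea.  (1) The base game.  Let `X = (Z/q)^k`, `q` an odd prime.  Left vertices are the functions
`t : X → Z/q`; right vertices are given by a function `t` and a choice of signs `s`; the neighbours
are `t + s * a`, `a ∈ X` (where `(s * a) g = s g * (a ⬝ g)`), and the constraint of the neighbour
`b` maps the label `a` to the class of `a - b` up to sign; so it is 2-to-1 except over the class of
zero.  The vectors `x_a`, functions on `X × Z/q` that record the values of `t + s * a`, are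
orthogonal and nonzero, and their sums over the fibres depend on the function of the neighbour only,
because the sign is symmetric there; all of them are nonzero, and constant integral weights on all
labels satisfy the linear system, up to the total `q ^ k`.  The union of the games for `q = 3` and
`q = 5` on the product graph has an integral solution of total one.  The value tends to zero: the
rank of the matrix of a labelling, and hypercontractivity with small-set expansion, see `SC`.
(2) The label sets are completed by labels with zero vectors (dummies) with random shifts, and united
with the label sets `Z/p × Z/q × Fin d` of `NH48/DA`, which are locally consistent on sparse graphs.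
(3) The host graph is a random sparse blow-up of the graph of the base game.

The definitions used in the statement are in `Pool/Agent/H589R3/DT/GameDefs.lean` (`DGame`,
`dInputs`, `DYes`, `DNo`, `DDecides`), `Pool/Agent/H630VC/Model.lean` (`Prog`),
`Pool/Agent/NH48/DA/Relax.lean` (`LinSol`, `BlpAip`, `PLab`, `KCons`) and
`Pool/Agent/NH48/SD/Defs.lean` (`VecSol`, `Sda`, `BlindS`).
-/

namespace Pool.Agent.Results.MP_62e2f2_lc.SdaOracles

open H630VC H589DT Pool.Agent.NH48.SD

/-- For all `d ≥ 2` and `ε > 0` there are `R` and `N0` such that for all `N ≥ N0` and
`k ≤ N ^ (1 / 14)`: every randomised circuit (a finite family `l ω`, `ω ∈ Ω`) of monotone real gates,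
whose inputs are the constraints of the game and arbitrary functions of the game that are constant on
the games accepted by SDA, BLP+AIP and `k`-consistency, and which on the d-to-1 games with `N` left
and `N` right vertices, `R` left labels and `d R` right labels tells the games of value less than `ε`
from those of value one for at least three quarters of the `ω`, has a member with at least
`2 ^ (N ^ (1 / 14))` gates. -/
theorem result (d : ℕ) (hd : 2 ≤ d) (ε : ℝ) (hε : 0 < ε) :
    ∃ R : ℕ, 1 ≤ R ∧ ∃ N0 : ℕ, ∀ N k : ℕ, N0 ≤ N → (k : ℝ) ≤ (N : ℝ) ^ (1 / 14 : ℝ) →
      ∀ (Ω : Type) [Fintype Ω] [Nonempty Ω] (l : Ω → List (DGame (Fin N) (Fin N) d R → ℝ)),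
      (∀ ω, Prog (dInputs (Fin N) (Fin N) d R ∪ BlindS (Fin N) (Fin N) d R k) (l ω)) →
      DDecides ε l → ∃ ω, (2 : ℝ) ^ ((N : ℝ) ^ (1 / 14 : ℝ)) ≤ (l ω).length :=
  dto1_blind d hd ε hε

end Pool.Agent.Results.MP_62e2f2_lc.SdaOracles
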